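import Mathlib
import Pool.Agent.L0h45.AD.FMB

/-!
# MP_f5d5f4_nt: 100% of all elliptic curves, ordered by conductor, have no congruence at any level

All elliptic curves over `ℚ` (any reduction, any `j`) are ordered by the conductor `N`, their height being at most
`N ^ β`-like, `β < 10/7`; more generally by any invariant `I` which is at least a constant times the part prime to `6` of
the conductor and at most a constant times the height. There are about `Z ^ (5/6)` of them with `I ≤ Z`. All but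
`o(Z ^ (5/6))` of them have no elliptic curve `E'` of height at most `H(E)^(1+δ)` which is not a quadratic twist of `E` with
`E'[n]` isomorphic to `E[n]`, for any `n ≥ 2`. Here `11 δ < 1`. If `I` is at least a constant times the discriminant, this
holds for all `β < 5/2`.

Proof. By `MP_f5d5f4_nt.EveryLevel` the exceptions are of density zero by height. Outside `o(Z ^ (5/6))` of the curves the
height is at most a constant times `Z`. This is the new part: the number of the curves (with additive reduction included)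
of conductor at most `Z` and height in a dyadic interval is bounded.
-/

set_option autoImplicit false

open WeierstrassCurve Filter Topology
open scoped Classical

namespace Pool.Agent.Results.MP_f5d5f4_nt.EveryLevelByConductor

/-- The curve `y² = x³ + Ax + B` over `ℚ`. -/
def curve (A B : ℤ) : WeierstrassCurve ℚ := ⟨0, 0, 0, A, B⟩

/-- The group of its points over the algebraic closure of `ℚ`. -/
abbrev Points (A B : ℤ) : Type := ((curve A B).baseChange (AlgebraicClosure ℚ)).toAffine.Point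

/-- The action of an automorphism `σ` of the algebraic closure on the points. -/
noncomputable def galois (A B : ℤ) (σ : AlgebraicClosure ℚ ≃ₐ[ℚ] AlgebraicClosure ℚ) :
    Points A B →+ Points A B :=
  WeierstrassCurve.Affine.Point.map
    (σ : AlgebraicClosure ℚ →ₐ[ℚ] AlgebraicClosure ℚ)

/-- The `n`-torsion of `y² = x³ + Ax + B` and that of `y² = x³ + A'x + B'` are isomorphic as Galois
modules: some map between the groups of points restricts to a bijective additive map of the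
`n`-torsion which commutes with the Galois group. -/
def Congruent (n : ℕ) (A B A' B' : ℤ) : Prop :=
  ∃ f : Points A B → Points A' B', (∀ P Q, n • P = 0 → n • Q = 0 → f (P + Q) = f P + f Q) ∧
    Set.BijOn f {P | n • P = 0} {Q | n • Q = 0} ∧
    ∀ (σ : AlgebraicClosure ℚ ≃ₐ[ℚ] AlgebraicClosure ℚ) (P : Points A B), n • P = 0 →
      f (galois A B σ P) = galois A' B' σ (f P)

/-- The discriminant, up to the factor `-16`. -/
def disc (A B : ℤ) : ℤ := 4 * A ^ 3 + 27 * B ^ 2

/-- The height of `y² = x³ + Ax + B`. -/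
def height (A B : ℤ) : ℤ := max (4 * |A| ^ 3) (27 * B ^ 2)

/-- `y² = x³ + A'x + B'` is a quadratic twist of `y² = x³ + Ax + B` (or isomorphic to it) over `ℚ`. -/
def IsTwist (A B A' B' : ℤ) : Prop :=
  ∃ δ : ℚ, δ ≠ 0 ∧ (A' : ℚ) = δ ^ 2 * A ∧ (B' : ℚ) = δ ^ 3 * B

/-- `E : y² = x³ + Ax + B` has no congruence, modulo any `n ≥ 2`, with a curve `E'` of height at most
`H(E)^(1+δ)`, except twists. -/
def NoCompanion (δ : ℝ) (A B : ℤ) : Prop :=
  ∀ A' B' : ℤ, disc A' B' ≠ 0 → ¬ IsTwist A B A' B' →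
    (height A' B' : ℝ) ≤ (height A B : ℝ) ^ (1 + δ) → ∀ n : ℕ, 2 ≤ n → ¬ Congruent n A B A' B'

/-- The pairs `(A, B)` with `4 A ^ 3 + 27 B ^ 2 ≠ 0` for which no prime `p` satisfies both `p ^ 4 ∣ A` and `p ^ 6 ∣ B`: one
for each elliptic curve over `ℚ`. -/
def Family : Set (ℤ × ℤ) := {q | disc q.1 q.2 ≠ 0 ∧
  ∀ p : ℕ, p.Prime → ¬ ((p : ℤ) ^ 4 ∣ q.1 ∧ (p : ℤ) ^ 6 ∣ q.2)}

/-- The part prime to `6` of the conductor: the product over the primes `p ≥ 5` of bad reduction of `p` (multiplicative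
reduction) or `p ^ 2` (additive reduction, that is `p ∣ A`). The conductor is this number times `2 ^ a * 3 ^ b` with
`a ≤ 8` and `b ≤ 5`. -/
def conductor6 (q : ℤ × ℤ) : ℕ :=
  ∏ p ∈ (disc q.1 q.2).natAbs.primeFactors.filter (fun p => 5 ≤ p), if (p : ℤ) ∣ q.1 then p ^ 2 else p

/-- The curves with `I ≤ Z` and height at most `Z ^ β`. -/
def UpTo (I : ℤ × ℤ → ℝ) (β Z : ℝ) : Set (ℤ × ℤ) :=
  {q ∈ Family | I q ≤ Z ∧ (height q.1 q.2 : ℝ) ≤ Z ^ β}

/-- The conclusion: there are about `Z ^ (5/6)` curves, and all of them but `o(Z ^ (5/6))` are without companions; in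
particular this is a proportion which tends to `1`. -/
def AlmostAll (δ : ℝ) (I : ℤ × ℤ → ℝ) (β : ℝ) : Prop :=
  (∀ Z : ℝ, (UpTo I β Z).Finite) ∧
  (∃ c C : ℝ, 0 < c ∧ ∀ᶠ Z : ℝ in atTop,
    c * Z ^ (5 / 6 : ℝ) ≤ ((UpTo I β Z).ncard : ℝ) ∧ ((UpTo I β Z).ncard : ℝ) ≤ C * Z ^ (5 / 6 : ℝ)) ∧
  Tendsto (fun Z : ℝ => ({q ∈ UpTo I β Z | ¬ NoCompanion δ q.1 q.2}.ncard : ℝ) / Z ^ (5 / 6 : ℝ))
    atTop (𝓝 0) ∧
  Tendsto (fun Z : ℝ => ({q ∈ UpTo I β Z | NoCompanion δ q.1 q.2}.ncard : ℝ) /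
    ((UpTo I β Z).ncard : ℝ)) atTop (𝓝 1)

theorem height_eq (q : ℤ × ℤ) : (height q.1 q.2 : ℝ) = Pool.Agent.L0h45.AD.ht q := by
  unfold height Pool.Agent.L0h45.AD.ht
  push_cast
  rfl

theorem UpTo_eq (I : ℤ × ℤ → ℝ) (β Z : ℝ) : UpTo I β Z = Pool.Agent.L0h45.AD.Upto I β Z := by
  ext q
  constructor
  · rintro ⟨h1, h2, h3⟩
    rw [height_eq] at h3
    exact ⟨h1, h2, h3⟩
  · rintro ⟨h1, h2, h3⟩
    rw [← height_eq] at h3
    exact ⟨h1, h2, h3⟩

theorem not_noCompanion (δ : ℝ) (q : ℤ × ℤ) :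
    ¬ NoCompanion δ q.1 q.2 ↔ Pool.Agent.L0h45.FM.Bad δ q := by
  constructor
  · intro h
    unfold NoCompanion at h
    push Not at h
    obtain ⟨A', B', a1, a2, a3, n, a4, a5⟩ := h
    exact ⟨A', B', n, a1, a2, a3, a4, a5⟩
  · rintro ⟨A', B', n, a1, a2, a3, a4, a5⟩ hno
    exact hno A' B' a1 a2 a3 n a4 a5

theorem conclude (δ : ℝ) (h₀ : 0 < δ) (h : 11 * δ < 1) {I : ℤ × ℤ → ℝ} {s β C : ℝ} (hs : 0 < s)
    (hβ : 1 ≤ β) (hsp : Pool.Agent.L0h45.AD.Spt s I β)
    (hI : ∀ q ∈ Family, I q ≤ C * (height q.1 q.2 : ℝ)) : AlmostAll δ I β := by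
  have hI' : Pool.Agent.L0h45.AD.Blw C I := by
    intro q hq
    rw [← height_eq]
    exact hI q hq
  obtain ⟨c₂, hc₂, h₂⟩ := Pool.Agent.L0h45.AD.low hβ hI'
  obtain ⟨C₁, hC₁, hup⟩ := hsp.up
  have hz := Pool.Agent.L0h45.AD.zero hs hβ hsp hI' (Pool.Agent.L0h45.AD.bad_zero δ h₀ h)
  have hset : ∀ Z : ℝ, {q ∈ UpTo I β Z | ¬ NoCompanion δ q.1 q.2} =
      Pool.Agent.L0h45.AD.Upto I β Z ∩ {q | Pool.Agent.L0h45.FM.Bad δ q} := by
    intro Z
    rw [← UpTo_eq]
    ext q
    rw [Set.mem_ofPred_eq, not_noCompanion]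
    rfl
  have hset' : ∀ Z : ℝ, {q ∈ UpTo I β Z | NoCompanion δ q.1 q.2} =
      Pool.Agent.L0h45.AD.Upto I β Z ∩ {q | Pool.Agent.L0h45.FM.Bad δ q}ᶜ := by
    intro Z
    rw [← UpTo_eq]
    ext q
    rw [Set.mem_ofPred_eq, Set.mem_inter_iff, Set.mem_compl_iff, Set.mem_ofPred_eq, ← not_noCompanion,
      not_not]
  have hposN : ∀ᶠ Z : ℝ in atTop, 0 < (Pool.Agent.L0h45.AD.Upto I β Z).ncard := by
    filter_upwards [h₂, eventually_gt_atTop 0] with Z h3 h4
    have h5 : (0 : ℝ) < ((Pool.Agent.L0h45.AD.Upto I β Z).ncard : ℝ) :=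
      lt_of_lt_of_le (by positivity) h3
    exact_mod_cast h5
  refine ⟨?_, ⟨c₂, C₁, hc₂, ?_⟩, ?_, ?_⟩
  · intro Z
    rw [UpTo_eq]
    exact Pool.Agent.L0h45.AD.Upto_fin I β Z
  · filter_upwards [h₂, eventually_ge_atTop 1] with Z h3 h4
    rw [UpTo_eq]
    exact ⟨h3, hup Z h4⟩
  · simp only [hset]
    have h1 := hz.const_mul C₁
    rw [mul_zero] at h1
    refine squeeze_zero' ?_ ?_ h1
    · filter_upwards [eventually_gt_atTop 0] with Z hZ
      positivity
    · filter_upwards [hposN, eventually_ge_atTop 1] with Z h3 h4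
      have h5 := hup Z h4
      have hZp : 0 < Z ^ (5 / 6 : ℝ) := by positivity
      have h6 : (0 : ℝ) < ((Pool.Agent.L0h45.AD.Upto I β Z).ncard : ℝ) := by exact_mod_cast h3
      rw [mul_div_assoc', div_le_div_iff₀ hZp h6]
      calc _ ≤ _ := mul_le_mul_of_nonneg_left h5 (Nat.cast_nonneg _)
        _ = _ := by ring
  · simp only [hset']
    have h1 := Pool.Agent.L0h45.AD.one_of_zero (S := {q | Pool.Agent.L0h45.FM.Bad δ q}ᶜ) hposN (by
      rw [compl_compl]
      exact hz)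
    refine h1.congr fun Z => ?_
    rw [UpTo_eq]

theorem conductor6_le (q : ℤ × ℤ) (h : q ∈ Family) :
    (conductor6 q : ℝ) ≤ |(disc q.1 q.2 : ℝ)| := by
  have hD : disc q.1 q.2 ≠ 0 := h.1
  have hdvd : ((conductor6 q : ℕ) : ℤ) ∣ disc q.1 q.2 := by
    unfold conductor6
    push_cast
    apply Finset.prod_dvd_of_coprime
    · intro p hp p' hp' hne
      have h1 := Nat.prime_of_mem_primeFactors (Finset.mem_filter.mp hp).1
      have h2 := Nat.prime_of_mem_primeFactors (Finset.mem_filter.mp hp').1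
      have h3 : IsCoprime (p : ℤ) (p' : ℤ) :=
        Nat.isCoprime_iff_coprime.mpr ((Nat.coprime_primes h1 h2).mpr hne)
      simp only [Function.onFun]
      split_ifs
      · exact h3.pow
      · exact h3.pow_left
      · exact h3.pow_right
      · exact h3
    · intro p hp
      rw [Finset.mem_filter, Nat.mem_primeFactors] at hp
      obtain ⟨⟨h1, h2, -⟩, h5⟩ := hp
      have h3 : (p : ℤ) ∣ disc q.1 q.2 := Int.natCast_dvd.mpr h2
      split_ifs with h4
      · obtain ⟨k, hk⟩ := h4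
        have h6 : (p : ℤ) ∣ 27 * q.2 ^ 2 := by
          have h7 : 27 * q.2 ^ 2 = disc q.1 q.2 - p * (4 * q.1 ^ 2 * k) := by
            unfold disc
            nth_rewrite 1 [pow_succ, hk]
            rw [hk]
            ring
          rw [h7]
          exact dvd_sub h3 (dvd_mul_right _ _)
        have h8 : (p : ℤ) ∣ q.2 := by
          have hc : IsCoprime (p : ℤ) 27 := by
            have h9 : Nat.Coprime p 27 := by
              have : (27 : ℕ) = 3 ^ 3 := by norm_num
              rw [this]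
              exact Nat.Coprime.pow_right 3 ((Nat.coprime_primes h1 Nat.prime_three).mpr (by omega))
            exact_mod_cast Nat.isCoprime_iff_coprime.mpr h9
          exact (Nat.prime_iff_prime_int.mp h1).dvd_of_dvd_pow (hc.dvd_of_dvd_mul_left h6)
        obtain ⟨l, hl⟩ := h8
        refine ⟨4 * p * k ^ 3 + 27 * l ^ 2, ?_⟩
        unfold disc
        rw [hk, hl]
        ring
      · exact h3
  have h1 : conductor6 q ≤ (disc q.1 q.2).natAbs :=
    Nat.le_of_dvd (Int.natAbs_pos.mpr hD) (Int.natCast_dvd.mp hdvd)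
  calc (conductor6 q : ℝ) ≤ (((disc q.1 q.2).natAbs : ℕ) : ℝ) := by exact_mod_cast h1
    _ = |(disc q.1 q.2 : ℝ)| := by
      rw [← Int.cast_abs, Int.abs_eq_natAbs]
      simp

theorem disc_le (q : ℤ × ℤ) : |(disc q.1 q.2 : ℝ)| ≤ 2 * (height q.1 q.2 : ℝ) := by
  unfold disc height
  push_cast
  have h1 := abs_add_le (4 * (q.1 : ℝ) ^ 3) (27 * (q.2 : ℝ) ^ 2)
  rw [abs_mul, abs_mul, abs_pow, abs_pow, abs_of_pos (by norm_num : (0 : ℝ) < 4),
    abs_of_pos (by norm_num : (0 : ℝ) < 27), sq_abs] at h1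
  have h2 := le_max_left (4 * |(q.1 : ℝ)| ^ 3) (27 * (q.2 : ℝ) ^ 2)
  have h3 := le_max_right (4 * |(q.1 : ℝ)| ^ 3) (27 * (q.2 : ℝ) ^ 2)
  linarith

/-- **Theorem.** Let `0 < δ < 1/11`. (1) Let `1 < β < 10/7` and let the invariant `I` be at least `c` times the part prime
to `6` of the conductor and at most `C` times the height, with constants `c, C > 0`; for example `I` may be the conductor.
Then `AlmostAll δ I β`: there are about `Z ^ (5/6)` elliptic curves over `ℚ` with `I ≤ Z` and height at most `Z ^ β`, and all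
but `o(Z ^ (5/6))` of them satisfy `NoCompanion δ`. (2) If `I` is at least `c` times the discriminant, for example the
minimal discriminant, this is true for `1 < β < 5/2`. (3) The part prime to `6` of the conductor is at most
`|4 A ^ 3 + 27 B ^ 2|`, which is at most twice the height. -/
theorem result (δ : ℝ) (h₀ : 0 < δ) (h : 11 * δ < 1) :
    (∀ (I : ℤ × ℤ → ℝ) (c C β : ℝ), 0 < c → 0 < C → 1 < β → β < 10 / 7 →
      (∀ q ∈ Family, c * (conductor6 q : ℝ) ≤ I q ∧ I q ≤ C * (height q.1 q.2 : ℝ)) →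
      AlmostAll δ I β) ∧
    (∀ (I : ℤ × ℤ → ℝ) (c C β : ℝ), 0 < c → 0 < C → 1 < β → β < 5 / 2 →
      (∀ q ∈ Family, c * |(disc q.1 q.2 : ℝ)| ≤ I q ∧ I q ≤ C * (height q.1 q.2 : ℝ)) →
      AlmostAll δ I β) ∧
    (∀ q ∈ Family, (conductor6 q : ℝ) ≤ |(disc q.1 q.2 : ℝ)| ∧
      |(disc q.1 q.2 : ℝ)| ≤ 2 * (height q.1 q.2 : ℝ)) := by
  refine ⟨?_, ?_, ?_⟩
  · intro I c C β hc hC hβ1 hβ2 hI
    have hI' : Pool.Agent.L0h45.AD.Btw c C I := by
      intro q hq
      rw [← height_eq]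
      exact hI q hq
    exact conclude δ h₀ h (by norm_num) hβ1.le
      (Pool.Agent.L0h45.AD.split (s := 1 / 12) (by norm_num) (by norm_num) (by linarith) hβ2 hc hI')
      (fun q hq => (hI q hq).2)
  · intro I c C β hc hC hβ1 hβ2 hI
    exact conclude δ h₀ h (by norm_num) hβ1.le
      (Pool.Agent.L0h45.AD.split_disc (by linarith) hβ2 hc (fun q hq => (hI q hq).1))
      (fun q hq => (hI q hq).2)
  · intro q hq
    exact ⟨conductor6_le q hq, disc_le q⟩

end Pool.Agent.Results.MP_f5d5f4_nt.EveryLevelByConductor
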