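import Mathlib
import Pool.Agent.L0h45.FM.Cond

/-!
# MP_f5d5f4_nt: the semistable curves ordered by conductor have no congruence with curves of much larger height

The semistable elliptic curves over `ℚ` (no condition on torsion, on `j` or on the reduction at `2` and `3`) with conductor
`N ≤ Z` and height at most `Z ^ β`, `1 < β < 10/7`, are `~ c Z ^ (5/6)` in number, `c > 0`.

**Theorem.** Let `D ≥ 1`, `P ≥ 13` and `κ < 10/7`. There is `δ > 0` such that all but `O(Z ^ (5/6 - δ))` of these curves `E`
have the following property. Let `K` be a number field of degree at most `D` and prime to `6` (for instance `ℚ`), `E₁` a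
curve over `K` with the invariant of `E` (for instance `E`) and `E'` a curve over `K` with a rational invariant of height
at most `Z ^ κ`. If `E₁` and `E'` are `p`-congruent over `K` for some prime `p ≥ P` larger than `[K : ℚ]`, then they are
isomorphic over `K`.

Proof. Let `x = c₄`, `y = c₆`, `x³ - y² = 1728 Δ`, `gcd(x, Δ) = 1`. For almost all curves `Δ = B m` with `m ≤ Z ^ ε`, a
squarefree `B` and height at most `Z ^ (1 + ε)`. By the local analysis of the start library `K4H56` the invariant `a/b` of
`E'` satisfies `a = s₁ u³`, `a - 1728 b = s₂ w²`, `b = B σ z ^ p`, where `s₁`, `s₂` are at most a power of `log Z` and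
the primes of `σ` divide `6 Δ`. So the point `(s₁ s₂ u, s₁ s₂² w)` satisfies `X³ - Y² = 1728 s₁² s₂³ b` with `b` prime to
`X`, of a small radical: it is almost a semistable curve of conductor at most `Z ^ (1 + ε) z`, and if its height is at
least `Z ^ (1 + η)` the number of these points is less than `Z ^ (5/6 - δ)` by a count of the semistable curves by height
and conductor (reduction of binary cubic forms); such a point determines `B` up to few choices, then `Δ`, and different
pairs `(x, y)` with the same `Δ` are rare. If the height is less than `Z ^ (1 + η)` the relation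
`T (x³ - y²) = m (s₁ u³ - s₂ w²)` with small `T`, `m` is for given `x`, `u` a Pell equation for `(y, w)`.
-/

set_option autoImplicit false

open WeierstrassCurve Filter Topology

namespace Pool.Agent.Results.MP_f5d5f4_nt.SemistableByConductor

section
variable {K : Type} [Field K]

/-- The curve `y² = x³ + Ax + B` over the field `K`. -/
def curve (A B : K) : WeierstrassCurve K := ⟨0, 0, 0, A, B⟩

/-- Its `j`-invariant. -/
noncomputable def invariant (A B : K) : K := 1728 * (4 * A ^ 3) / (4 * A ^ 3 + 27 * B ^ 2)

open scoped Classical in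
/-- The group of its points over the algebraic closure of `K`. -/
abbrev Points (A B : K) : Type := ((curve A B).baseChange (AlgebraicClosure K)).toAffine.Point

open scoped Classical in
/-- The action of an automorphism `σ` of the algebraic closure on the points. -/
noncomputable def galois (A B : K) (σ : AlgebraicClosure K ≃ₐ[K] AlgebraicClosure K) :
    Points A B →+ Points A B :=
  WeierstrassCurve.Affine.Point.map (σ : AlgebraicClosure K →ₐ[K] AlgebraicClosure K)

open scoped Classical in
/-- The curves `y² = x³ + Ax + B` and `y² = x³ + A'x + B'` are `p`-congruent over `K`: some map between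
the groups of points restricts to a bijective additive map between the groups of points killed by `p`
which commutes with the Galois group. -/
def Congruent (p : ℕ) (A B A' B' : K) : Prop :=
  ∃ f : Points A B → Points A' B', (∀ P Q, p • P = 0 → p • Q = 0 → f (P + Q) = f P + f Q) ∧
    Set.BijOn f {P | p • P = 0} {Q | p • Q = 0} ∧
    ∀ (σ : AlgebraicClosure K ≃ₐ[K] AlgebraicClosure K) (P : Points A B), p • P = 0 →
      f (galois A B σ P) = galois A' B' σ (f P)

/-- The curves are isomorphic over `K`. -/
def Isomorphic (A B A' B' : K) : Prop := ∃ c : K, c ≠ 0 ∧ A' = c ^ 4 * A ∧ B' = c ^ 6 * B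

end

/-- The height of `j = a / b`, in lowest terms: the maximum of `|a|` and `b`. -/
def height (j : ℚ) : ℕ := max j.num.natAbs j.den

/-- The curves with invariant `j`, over number fields `K` of degree at most `D` and prime to `6`, are not
congruent modulo a prime `p ≥ P` larger than `[K : ℚ]` to any curve with a rational invariant of height
at most `y`, except for the curves isomorphic to them. -/
def NoCongruence (D P : ℕ) (y : ℝ) (j : ℚ) : Prop :=
  ∀ (K : Type) [Field K] [NumberField K] (p : ℕ) (A B A' B' : K) (j' : ℚ),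
    Module.finrank ℚ K ≤ D → (Module.finrank ℚ K).Coprime 6 →
    p.Prime → P ≤ p → Module.finrank ℚ K < p →
    4 * A ^ 3 + 27 * B ^ 2 ≠ 0 → 4 * A' ^ 3 + 27 * B' ^ 2 ≠ 0 →
    invariant A B = (j : K) → invariant A' B' = (j' : K) → (height j' : ℝ) ≤ y →
    Congruent p A B A' B' → Isomorphic A B A' B'

/-- the conductor of a semistable curve: the product of the primes dividing the discriminant -/
def conductor (W : WeierstrassCurve ℤ) : ℕ := ∏ p ∈ W.Δ.natAbs.primeFactors, p

/-- `W` is an elliptic curve with semistable reduction at all primes: `Δ ≠ 0` and `gcd(c₄, Δ) = 1` (so `W` is a global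
minimal model) -/
def Semistable (W : WeierstrassCurve ℤ) : Prop := W.Δ ≠ 0 ∧ IsCoprime W.c₄ W.Δ

/-- the naive height of (a minimal model of) a curve -/
noncomputable def naiveHeight (W : WeierstrassCurve ℤ) : ℝ := max (|(W.c₄ : ℝ)| ^ 3) ((W.c₆ : ℝ) ^ 2)

/-- the semistable elliptic curves over `ℚ` with the property `P`, given by the invariants `(c₄, c₆)` of their global
minimal models -/
def Curves (P : WeierstrassCurve ℤ → Prop) : Set (ℤ × ℤ) :=
  {q | ∃ W : WeierstrassCurve ℤ, Semistable W ∧ P W ∧ q = (W.c₄, W.c₆)}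

/-- **Theorem.** Let `1 < β < 10/7`. The semistable curves over `ℚ` with conductor at most `Z` and height at most `Z ^ β`
are asymptotically `c Z ^ (5/6)` in number, `c > 0`. For `P ≥ 13`, every `D` and `κ < 10/7` all but at most
`C Z ^ (5/6 - δ)` of them, `δ > 0`, have no `p`-congruence, `p ≥ P`, with curves with invariants of height at most
`Z ^ κ`, except for isomorphisms, over any number field of degree at most `D` and prime to `6`. -/
theorem result (β : ℝ) (hβ₁ : 1 < β) (hβ : β < 10 / 7) :
    (∃ c : ℝ, 0 < c ∧ Tendsto (fun Z : ℝ => ((Curves fun W => (conductor W : ℝ) ≤ Z ∧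
      naiveHeight W ≤ Z ^ β).ncard : ℝ) / Z ^ (5 / 6 : ℝ)) atTop (𝓝 c)) ∧
    ∀ (D P : ℕ) (κ : ℝ), 13 ≤ P → κ < 10 / 7 → ∃ δ : ℝ, 0 < δ ∧ ∃ C : ℝ, ∀ Z : ℝ, 1 ≤ Z →
      ((Curves fun W => (conductor W : ℝ) ≤ Z ∧ naiveHeight W ≤ Z ^ β ∧
        ¬ NoCongruence D P (Z ^ κ) ((W.c₄ : ℚ) ^ 3 / (W.Δ : ℚ))).ncard : ℝ) ≤
        C * Z ^ (5 / 6 - δ) := by
  refine ⟨⟨_, Pool.Agent.L0h45.DH.kap_pos, Pool.Agent.L0h45.DH.fin_all β hβ₁ hβ⟩, ?_⟩
  intro D P κ hP hκ
  have hinv : ∀ {K : Type} [Field K] (A B : K), Pool.Agent.Y673.Loc.jv A B = invariant A B := by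
    intro K _ A B
    unfold Pool.Agent.Y673.Loc.jv invariant
    ring
  obtain ⟨δ, hδ, C, h⟩ := Pool.Agent.L0h45.FM.fin_cond β κ hβ₁.le hβ hκ D P hP
  refine ⟨δ, hδ, C, fun Z hZ => le_trans ?_ (h Z hZ)⟩
  refine Nat.cast_le.2 (Set.ncard_le_ncard ?_
    (Pool.Agent.L0h45.DH.cv_finite (H := Z ^ β) fun W hW => hW.2.1))
  rintro q ⟨W, hW, ⟨k1, k2, k3⟩, rfl⟩
  refine ⟨W, hW, ⟨k1, k2, fun hFM => k3 ?_⟩, rfl⟩
  intro K _ _ p A B A' B' j' hD h6 hp hPp hn hd hd' hjj hjj' hH ⟨f, h1, h2, h3⟩
  exact hFM K _ _ p A B A' B' j' hD h6 hPp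
    ⟨hd, hd', by rw [hinv, hjj], by rw [hinv, hjj'], hp, hP.trans hPp, hn, ⟨f, h1, h2, h3⟩⟩ hH

end Pool.Agent.Results.MP_f5d5f4_nt.SemistableByConductor
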